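import Pool.Agent.Q241.FP.Col
import Pool.Agent.Q241.FP.Many

set_option autoImplicit false

/-!
# General collisions of `r` fat points: all `10 ≤ r ≤ 49` at once, and all `46 ≤ r ≤ R` at once

For a positive proportion of the multiplicities `m` of every long interval, and of the `m = f(k)` and the
`m = f(p)`, `p` prime, for every integral polynomial `f` of positive degree with positive leading coefficient, the
expected dimension holds in characteristic zero in all degrees
(1) for all `r` from `10` to `49` simultaneously,
(2) for every bound `R`, for all `r` with `10 ≤ r ≤ 16` or `46 ≤ r ≤ R` and all squares `r ≥ 10` simultaneously.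
-/

namespace Pool.Agent.Results.MP_e6aa12_ag.ManyNumbersAtOnce

open Pool.Agent.Results.MP_e6aa12_ag.EveryNumberOfPoints (Expected)
open Pool.Agent.Q241.FP

universe u

theorem result :
    Often (fun m => ∀ r : ℕ, 10 ≤ r → r ≤ 49 → Expected.{u} r m Set.univ) ∧
    ∀ R : ℕ, Often (fun m => ∀ r : ℕ, 10 ≤ r → (IsSquare r ∨ r ≤ 16 ∨ (46 ≤ r ∧ r ≤ R)) →
      Expected.{u} r m Set.univ) := by
  refine ⟨?_, fun R => ?_⟩
  · refine many (K := (Finset.Icc 2 49).filter Squarefree) (fun k hk => ?_)
      (fun k => ((tg k : ℚ) : ℝ)) (show (0 : ℝ) < 1 / 400 by norm_num) (by norm_num)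
      fun m hm h r hr hr' => ?_
    · rw [Finset.mem_filter, Finset.mem_Icc] at hk
      exact ⟨hk.2, by omega⟩
    · by_cases hsq : IsSquare r
      · exact coll_sq hr hsq
      · refine coll_of_win hr (win49 (fun k h2 h49 hk => ?_) hr hr' hsq)
        exact h k (Finset.mem_filter.2 ⟨Finset.mem_Icc.2 ⟨h2, h49⟩, hk⟩)
  · refine many (K := (Finset.Icc 2 (max R 16)).filter Squarefree) (fun k hk => ?_)
      (fun _ => 0) (show (0 : ℝ) < (1 / 1000) / (((max R 16 : ℕ) : ℝ) + 1) by positivity) ?_
      fun m hm h r hr hr' => ?_
    · rw [Finset.mem_filter, Finset.mem_Icc] at hk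
      exact ⟨hk.2, by omega⟩
    · rw [div_le_one (by positivity)]
      have : (0 : ℝ) ≤ ((max R 16 : ℕ) : ℝ) := Nat.cast_nonneg _
      linarith
    · by_cases hsq : IsSquare r
      · exact coll_sq hr hsq
      · have hrR : r ≤ max R 16 := by
          rcases hr' with h | h | h
          · exact absurd h hsq
          · exact h.trans (le_max_right _ _)
          · exact h.2.trans (le_max_left _ _)
        obtain ⟨e, he⟩ := red (R := max R 16) (show (0 : ℝ) < 1 / 1000 by norm_num) (m := m)
          (fun k h2 hkR hk => h k (Finset.mem_filter.2 ⟨Finset.mem_Icc.2 ⟨h2, hkR⟩, hk⟩))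
          (by omega) hrR hsq
        refine coll_of_win hr (win_zero hr ?_ he)
        rcases hr' with h | h | h
        · exact absurd h hsq
        · left
          by_contra hcon
          have : r = 16 := by omega
          apply hsq
          rw [this]
          exact ⟨4, rfl⟩
        · exact Or.inr h.1

end Pool.Agent.Results.MP_e6aa12_ag.ManyNumbersAtOnce
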