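import Pool.Agent.Q138.PS.ZH
import Pool.Agent.Results.MP_e6aa12_ag.EveryNumberOfPoints
import Pool.Agent.Results.MP_e6aa12_ag.ElevenAndThirteen

/-!
# General collisions: the multiplicities `m = A ⌊θ l(n)⌋ + C` for an arbitrary separated sequence `l`

Let `l(0), l(1), ...` be any sequence of nonnegative real numbers with gaps `l(n+1) - l(n) ≥ δ > 0` (for instance the primes,
`n log n`, `n ^ s` with `s ≥ 1`, `2 ^ n` or `n!`). For almost every real `θ > 0` and all integers `A ≥ 1`, `C ≥ 0` the following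
holds for the multiplicities `m = A ⌊θ l(n)⌋ + C`.

(1) For a positive proportion (at least a fixed number `κ > 0`) of the `n ≤ N`: for ALL `10 ≤ r ≤ 36`, every field `k` of
characteristic zero and all `(c, a)` outside a hypersurface the space of forms of EVERY degree vanishing on the subscheme of the
plane with ideal `(y - (a₀ + a₁ x + ... + a_(r-1) x ^ (r-1)), (x - c) ^ r) ^ m` has the expected dimension.
(2) For every finite set `R` of numbers `r ≥ 10`, not squares and such that no product of two different elements is a square, this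
holds for all `r ∈ R` and all squares `r` for a proportion at least `∏ r ∈ R, (1 - beta r)` of the `n ≤ N`.
(3) For `r ≥ r₀(ε)` (independent of the sequence, `θ`, `A` and `C`) it holds for all but a proportion `ε` of the `n ≤ N`.

Proof. The Weyl sums of the `⌊θ l(n)⌋` with algebraic irrational frequencies are `o(N)` for almost all `θ` (mean square estimate,
and equidistribution of the pairs `(θ l(n), β θ l(n))` modulo one); the windows which are left in the starting files are treated by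
the joint equidistribution of the numbers `√s m` (library `Q117/HH` of helper117).
-/

set_option autoImplicit false

namespace Pool.Agent.Results.MP_e6aa12_ag.MultiplicitiesAlongSequences

open Finset Filter MeasureTheory
open Pool.Agent.Q117.HH
open Pool.Agent.Q138.PS.MS
open Pool.Agent.Results.MP_e6aa12_ag.EveryNumberOfPoints (forms Expected)

universe u

/-- The expected dimension in all degrees, for a general collision of `r` points of multiplicity `m`. -/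
def Holds (r m : ℕ) : Prop := Expected.{u} r m Set.univ

/-- The bound for the proportion of the other multiplicities. -/
noncomputable def beta (r : ℕ) : ℝ := be {11, 13} r

theorem mono {r m : ℕ} {S S' : Set ℕ} (h : Expected.{u} r m S') (hS : S ⊆ S') : Expected.{u} r m S := by
  intro k _ _
  obtain ⟨F, hF, hF'⟩ := h k
  exact ⟨F, hF, fun c a hc d hd => hF' c a hc d (hS hd)⟩

theorem holds_sq {r : ℕ} (hr : 10 ≤ r) (hsq : IsSquare r) (m : ℕ) : Holds.{u} r m := by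
  intro k _ _
  obtain ⟨F, hF, hF'⟩ := Pool.Agent.TH183.QS.coll_start (m := m) hr (Or.inr hsq) k
  exact ⟨F, hF, fun c a hc d _ => hF' c a hc d⟩

theorem holds_of {r m : ℕ} (hr : 10 ≤ r) (h : ∀ d, ¬ Win r m d) : Holds.{u} r m := by
  have h1 := (EveryNumberOfPoints.result.{u}).2.1 r m hr
  refine mono h1 fun d _ => ?_
  have h2 := h d
  unfold Win lo up at h2
  rw [not_and_or, not_le, not_le] at h2
  have e1 : √(r : ℝ) * (2 * m + 1) = 2 * (√(r : ℝ) * m) + √(r : ℝ) := by ring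
  have e2 : √(r : ℝ) * (m + 1) = √(r : ℝ) * m + √(r : ℝ) := by ring
  show (d : ℝ) < √(r : ℝ) * m ∨ √(r : ℝ) * (m + 1) < d + 3 ∨
    2 * (d : ℝ) + 3 + (2 / 3 + 9 / (4 * √(r : ℝ))) < √(r : ℝ) * (2 * m + 1) ∨
    √(r : ℝ) * (2 * m + 1) + (2 / 3 + 1 / (4 * √(r : ℝ))) < 2 * d + 3
  rcases h2 with h2 | h2
  · rcases min_choice (√(r : ℝ) - 3) (2 / 3 + 9 / (4 * √(r : ℝ))) with h3 | h3 <;> rw [h3] at h2
    · left; linarith
    · right; right; left; linarith
  · rcases min_choice (√(r : ℝ) - 3) (2 / 3 + 1 / (4 * √(r : ℝ))) with h3 | h3 <;> rw [h3] at h2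
    · right; left; linarith
    · right; right; right; linarith

theorem lo_small {r : ℕ} (hr : r = 11 ∨ r = 13) : lo r = √(r : ℝ) - 3 := by
  unfold lo
  apply min_eq_left
  have h1 : √(r : ℝ) ≤ 3.61 := by
    rcases hr with rfl | rfl <;> exact Real.sqrt_le_iff.2 ⟨by norm_num, by norm_num⟩
  have h2 : (0 : ℝ) ≤ 9 / (4 * √(r : ℝ)) := by positivity
  linarith

theorem holds_of3 {r m : ℕ} (hr : r = 11 ∨ r = 13) (h : ∀ d, ¬ Win3 r m d) : Holds.{u} r m := by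
  have h1 := (ElevenAndThirteen.result.{u} r hr).1 m
  intro k _ _
  obtain ⟨F, hF, hF'⟩ := h1 k
  refine ⟨F, hF, fun c a hc d _ => hF' c a hc d ?_⟩
  show ¬ 3 ∣ d ∨ (d : ℝ) ≤ √(r : ℝ) * m ∨ √(r : ℝ) * (2 * m + 1) ≤ 2 * d + 3
  by_contra hcon
  push Not at hcon
  obtain ⟨h2, h3, h4⟩ := hcon
  refine h d ⟨h2, ?_, h4⟩
  rw [lo_small hr]
  linarith

/-- **Main result.** -/
theorem result :
    ∃ (κ : ℝ) (r₀ : ℝ → ℕ), 0 < κ ∧
    (∀ l : ℕ → ℝ, (∀ n, 0 ≤ l n) → ∀ δ : ℝ, 0 < δ → (∀ n, l n + δ ≤ l (n + 1)) →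
      ∀ᵐ θ : ℝ, 0 < θ → ∀ A C : ℕ, 1 ≤ A →
      -- all `10 ≤ r ≤ 36` at once
      (∀ᶠ N : ℕ in atTop, κ * N ≤ Set.ncard {n : ℕ | 1 ≤ n ∧ n ≤ N ∧
        ∀ r : ℕ, 10 ≤ r → r ≤ 36 → Holds.{u} r (A * ⌊θ * l n⌋₊ + C)}) ∧
      -- the proportions
      (∀ R : Finset ℕ, (∀ r ∈ R, 10 ≤ r ∧ ¬ IsSquare r) → (∀ r ∈ R, ∀ s ∈ R, r ≠ s → ¬ IsSquare (r * s)) →
        ∀ ε : ℝ, 0 < ε → ∀ᶠ N : ℕ in atTop, (∏ r ∈ R, (1 - beta r) - ε) * N ≤
          Set.ncard {n : ℕ | 1 ≤ n ∧ n ≤ N ∧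
            ∀ r : ℕ, 10 ≤ r → (r ∈ R ∨ IsSquare r) → Holds.{u} r (A * ⌊θ * l n⌋₊ + C)}) ∧
      -- many points
      (∀ ε : ℝ, 0 < ε → ∀ r : ℕ, r₀ ε ≤ r → ∀ᶠ N : ℕ in atTop,
        (1 - ε) * N ≤ Set.ncard {n : ℕ | 1 ≤ n ∧ n ≤ N ∧ Holds.{u} r (A * ⌊θ * l n⌋₊ + C)})) ∧
    (∀ r : ℕ, 10 ≤ r → beta r < 1) ∧ beta 10 < 0.163 ∧ beta 11 < 0.053 ∧ beta 13 < 0.101 := by
  have q1 : ∀ m : ℕ, 0 < m → (∀ r : ℕ, 10 ≤ r → r ≤ 36 → ¬ IsSquare r → ∀ d, ¬ Win r m d) →
      ∀ r : ℕ, 10 ≤ r → r ≤ 36 → Holds.{u} r m := by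
    intro m _ h r hr hr2
    by_cases hsq : IsSquare r
    · exact holds_sq hr hsq m
    · exact holds_of hr (h r hr hr2 hsq)
  have q2 : ∀ R : Finset ℕ, ∀ m : ℕ, 0 < m → (∀ r ∈ R, r ∈ ({11, 13} : Finset ℕ) → ∀ d, ¬ Win3 r m d) →
      (∀ r ∈ R, r ∉ ({11, 13} : Finset ℕ) → ∀ d, ¬ Win r m d) →
      ∀ r : ℕ, 10 ≤ r → (r ∈ R ∨ IsSquare r) → Holds.{u} r m := by
    intro R m _ h1 h2 r hr hrR
    rcases hrR with hrR | hsq
    · by_cases hT : r ∈ ({11, 13} : Finset ℕ)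
      · exact holds_of3 (by simpa using hT) (h1 r hrR hT)
      · exact holds_of hr (h2 r hrR hT)
    · exact holds_sq hr hsq m
  have q3 : ∀ ε : ℝ, ∃ r₀ : ℕ, 0 < ε → 10 ≤ r₀ ∧ ∀ r : ℕ, r₀ ≤ r →
      ∀ m : ℕ, Expected.{u} r m {d | min (ε / 2) (1 / 2) ≤ |2 * (d : ℝ) + 3 - Real.sqrt r * (2 * m + 1)|} := by
    intro ε
    by_cases hε : 0 < ε
    · obtain ⟨r₀, hr₀⟩ := (EveryNumberOfPoints.result.{u}).2.2.2.2 (min (ε / 2) (1 / 2)) (by positivity)
      exact ⟨max r₀ 10, fun _ => ⟨le_max_right _ _, fun r hr => (hr₀ r ((le_max_left _ _).trans hr)).1⟩⟩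
    · exact ⟨0, fun h => absurd h hε⟩
  choose r₀ hr₀ using q3
  refine ⟨kap, r₀, kap_pos, fun l hl0 δ hδ hl => ?_, fun n hn => be_lt hn, be_ten (by decide), be_eleven (by decide),
    be_thirteen (by decide)⟩
  filter_upwards [weyl_ae l hl0 δ hδ hl] with θ hθ h0 A C hA
  obtain ⟨hw, hpos⟩ := hθ h0
  have hW : Weyl fun n => A * ⌊θ * l n⌋₊ + C := hw.affine hA C
  have hP : ∀ᶠ n : ℕ in atTop, 0 < A * ⌊θ * l n⌋₊ + C := by
    filter_upwards [hpos] with n hn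
    have : 0 < A * ⌊θ * l n⌋₊ := Nat.mul_pos (by omega) hn
    omega
  refine ⟨joint_seq (Q := fun m => ∀ r : ℕ, 10 ≤ r → r ≤ 36 → Holds.{u} r m) q1 hW hP, fun R hR hpair ε hε =>
    several_seq (Q := fun m => ∀ r : ℕ, 10 ≤ r → (r ∈ R ∨ IsSquare r) → Holds.{u} r m) (fun r hr => (hR r hr).1)
      (fun r hr => (hR r hr).2) hpair (q2 R) hW hP hε, fun ε hε r hr => ?_⟩
  obtain ⟨h10, h1⟩ := hr₀ ε hε
  by_cases hsq : IsSquare r
  · have h2 := several_seq (Q := fun m => Holds.{u} r m) (R := ∅) (T := ∅) (by simp) (by simp) (by simp)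
      (fun m _ _ _ => holds_sq (h10.trans hr) hsq m) hW hP hε
    simp only [prod_empty] at h2
    exact h2
  · have hd0 : 0 < min (ε / 2) (1 / 2 : ℝ) := by positivity
    have hd1 : min (ε / 2) (1 / 2 : ℝ) < 1 := (min_le_right _ _).trans_lt (by norm_num)
    have hd2 : 1 - ε < 1 - min (ε / 2) (1 / 2 : ℝ) := by
      have := min_le_left (ε / 2) (1 / 2 : ℝ)
      linarith
    refine one_seq (Q := fun m => Holds.{u} r m) hsq hd0 hd1 (fun m hm => ?_) hW hd2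
    exact mono (h1 r hr m) fun d _ => hm d

end Pool.Agent.Results.MP_e6aa12_ag.MultiplicitiesAlongSequences
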