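import Mathlib
import Pool.Agent.Q197.SC.Fin

set_option autoImplicit false

/-!
# Collisions of eleven and of thirteen fat points, every characteristic: at most one curve is left

Let `r` be eleven or thirteen. For every characteristic `p` and every multiplicity `m`, either the forms
of degree `d` through the subscheme of the plane with ideal
`(y - (a₀ + a₁ x + ... + a_(r-1) x ^ (r-1)), (x - c) ^ r) ^ m` have the expected dimension for all `(c, a)`
outside a hypersurface and EVERY degree `d`, over every field of characteristic `p`, or this fails in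
exactly one degree `d₀`, which lies in a short window, and there the expected dimension is zero and the
dimension is one.
-/

namespace Pool.Agent.Results.MP_e6aa12_ag.OneCurveForElevenAndThirteen

open Polynomial

universe u

/-- The forms of degree `d` in three variables whose dehomogenisation lies in the ideal
`(y - ∑ a_j x ^ j, (x - c) ^ r) ^ m` of `k[x][y]`. -/
noncomputable def forms {k : Type u} [Field k] {r : ℕ} (m : ℕ) (c : k) (a : Fin r → k) (d : ℕ) :
    Submodule k (MvPolynomial (Fin 3) k) :=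
  MvPolynomial.homogeneousSubmodule (Fin 3) k d ⊓
    (Submodule.restrictScalars k
      ((Ideal.span {X - C (∑ j : Fin r, C (a j) * X ^ (j : ℕ)), C ((X - C c) ^ r)} :
        Ideal k[X][X]) ^ m)).comap
      (MvPolynomial.aeval ![C X, X, 1] :
        MvPolynomial (Fin 3) k →ₐ[k] k[X][X]).toLinearMap

/-- The virtual dimension, zero if negative. -/
def expected (r m d : ℕ) : ℕ := Nat.choose (d + 2) 2 - r * Nat.choose (m + 1) 2

/-- Over every field of characteristic `p`, for all `(c, a)` outside a hypersurface, the dimension of the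
space of forms of degree `d` is `h d`, for all `d`. -/
def HasDimensions (p r m : ℕ) (h : ℕ → ℕ) : Prop :=
  ∀ (k : Type u) [Field k] [CharP k p],
    ∃ F : MvPolynomial (Fin (r + 1)) k, F ≠ 0 ∧
      ∀ (c : k) (a : Fin r → k), MvPolynomial.eval (Fin.cons c a : Fin (r + 1) → k) F ≠ 0 →
        ∀ d : ℕ, Module.finrank k (forms m c a d) = h d

theorem result (r : ℕ) (hr : r = 11 ∨ r = 13) (p m : ℕ) :
    HasDimensions.{u} p r m (expected r m) ∨
    ∃ d₀ : ℕ, 3 ∣ d₀ ∧ √(r : ℝ) * m < d₀ ∧ 2 * (d₀ : ℝ) + 3 < √(r : ℝ) * (2 * m + 1) ∧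
      expected r m d₀ = 0 ∧ HasDimensions.{u} p r m (Function.update (expected r m) d₀ 1) := by
  have key : (∀ (k : Type u) [Field k] [CharP k p],
      ∃ F : MvPolynomial (Fin (r + 1)) k, F ≠ 0 ∧
        ∀ (c : k) (a : Fin r → k), MvPolynomial.eval (Fin.cons c a : Fin (r + 1) → k) F ≠ 0 →
          ∀ d : ℕ, Pool.Agent.H932R3.JetDim r m c a d) ∨
    ∃ d₀ : ℕ, Pool.Agent.Q197.SC.Win r m d₀ ∧ (d₀ + 2).choose 2 ≤ r * (m + 1).choose 2 ∧
      ∀ (k : Type u) [Field k] [CharP k p],
        ∃ F : MvPolynomial (Fin (r + 1)) k, F ≠ 0 ∧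
          ∀ (c : k) (a : Fin r → k), MvPolynomial.eval (Fin.cons c a : Fin (r + 1) → k) F ≠ 0 →
            Pool.Agent.Q197.SC.jdim r m c a d₀ = 1 ∧
              ∀ d : ℕ, d ≠ d₀ → Pool.Agent.H932R3.JetDim r m c a d := by
    rcases hr with rfl | rfl
    · exact Pool.Agent.Q197.SC.coll_gen Pool.Agent.TH518.CW.num2_11 (by push_cast; rfl) (by norm_num)
        (by norm_num) m p
    · exact Pool.Agent.Q197.SC.coll_gen Pool.Agent.TH518.CW.num2_13 (by push_cast; rfl) (by norm_num)
        (by norm_num) m p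
  rcases key with h | ⟨d₀, ⟨h1, h2, h3⟩, h4, h5⟩
  · left
    intro k _ _
    obtain ⟨F, hF, hF'⟩ := h k
    exact ⟨F, hF, fun c a hc d => hF' c a hc d⟩
  · refine Or.inr ⟨d₀, h1, h2, h3, Nat.sub_eq_zero_of_le h4, fun k _ _ => ?_⟩
    obtain ⟨F, hF, hF'⟩ := h5 k
    refine ⟨F, hF, fun c a hc d => ?_⟩
    obtain ⟨g1, g2⟩ := hF' c a hc
    by_cases hd : d = d₀
    · subst hd
      rw [Function.update_self]
      exact g1
    · rw [Function.update_of_ne hd]
      exact g2 d hd

end Pool.Agent.Results.MP_e6aa12_ag.OneCurveForElevenAndThirteen
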