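import Pool.Agent.Q117.HH.E
import Pool.Agent.Results.MP_e6aa12_ag.EveryNumberOfPoints
import Pool.Agent.Results.MP_e6aa12_ag.ElevenAndThirteen

set_option autoImplicit false

/-!
# General collisions: one multiplicity `m` for all numbers `10 ≤ r ≤ 36` of points at once

For a positive proportion of the multiplicities `m` of every long interval, and of the `m = f(k)` and the `m = f(p)`, `p` prime,
for every integral polynomial `f` of positive degree with positive leading coefficient: for ALL `10 ≤ r ≤ 36`, every field `k` of characteristic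
zero and all `(c, a)` outside a hypersurface the space of forms of EVERY degree vanishing on the subscheme of the plane with ideal
`(y - (a₀ + a₁ x + ... + a_(r-1) x ^ (r-1)), (x - c) ^ r) ^ m` has the expected dimension. For every finite set `R` of numbers
`r ≥ 10`, not squares and such that no product of two different elements is a square, this holds for all `r ∈ R` and all squares
`r` for a proportion at least `∏ r ∈ R, (1 - beta r)` of the multiplicities `m = f(k)` and of the `m = f(p)`. For `r ≥ r₀(ε)` it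
holds for all but a proportion `ε` of them.
-/

namespace Pool.Agent.Results.MP_e6aa12_ag.OneMultiplicitySeveralNumbers

open Finset Filter Polynomial
open Pool.Agent.Q117.HH
open Pool.Agent.Results.MP_e6aa12_ag.EveryNumberOfPoints (forms Expected)

universe u

/-- The expected dimension in all degrees, for a general collision of `r` points of multiplicity `m`. -/
def Holds (r m : ℕ) : Prop := Expected.{u} r m Set.univ

/-- The bound for the proportion of the other multiplicities. -/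
noncomputable def beta (r : ℕ) : ℝ := be {11, 13} r

theorem mono {r m : ℕ} {S S' : Set ℕ} (h : Expected.{u} r m S') (hS : S ⊆ S') : Expected.{u} r m S := by
  intro k _ _
  obtain ⟨F, hF, hF'⟩ := h k
  exact ⟨F, hF, fun c a hc d hd => hF' c a hc d (hS hd)⟩

theorem holds_sq {r : ℕ} (hr : 10 ≤ r) (hsq : IsSquare r) (m : ℕ) : Holds.{u} r m := by
  intro k _ _
  obtain ⟨F, hF, hF'⟩ := Pool.Agent.TH183.QS.coll_start (m := m) hr (Or.inr hsq) k
  exact ⟨F, hF, fun c a hc d _ => hF' c a hc d⟩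

theorem holds_of {r m : ℕ} (hr : 10 ≤ r) (h : ∀ d, ¬ Win r m d) : Holds.{u} r m := by
  have h1 := (EveryNumberOfPoints.result.{u}).2.1 r m hr
  refine mono h1 fun d _ => ?_
  have h2 := h d
  unfold Win lo up at h2
  rw [not_and_or, not_le, not_le] at h2
  have e1 : √(r : ℝ) * (2 * m + 1) = 2 * (√(r : ℝ) * m) + √(r : ℝ) := by ring
  have e2 : √(r : ℝ) * (m + 1) = √(r : ℝ) * m + √(r : ℝ) := by ring
  show (d : ℝ) < √(r : ℝ) * m ∨ √(r : ℝ) * (m + 1) < d + 3 ∨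
    2 * (d : ℝ) + 3 + (2 / 3 + 9 / (4 * √(r : ℝ))) < √(r : ℝ) * (2 * m + 1) ∨
    √(r : ℝ) * (2 * m + 1) + (2 / 3 + 1 / (4 * √(r : ℝ))) < 2 * d + 3
  rcases h2 with h2 | h2
  · rcases min_choice (√(r : ℝ) - 3) (2 / 3 + 9 / (4 * √(r : ℝ))) with h3 | h3 <;> rw [h3] at h2
    · left; linarith
    · right; right; left; linarith
  · rcases min_choice (√(r : ℝ) - 3) (2 / 3 + 1 / (4 * √(r : ℝ))) with h3 | h3 <;> rw [h3] at h2
    · right; left; linarith
    · right; right; right; linarith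

theorem lo_small {r : ℕ} (hr : r = 11 ∨ r = 13) : lo r = √(r : ℝ) - 3 := by
  unfold lo
  apply min_eq_left
  have h1 : √(r : ℝ) ≤ 3.61 := by
    rcases hr with rfl | rfl <;> exact Real.sqrt_le_iff.2 ⟨by norm_num, by norm_num⟩
  have h2 : (0 : ℝ) ≤ 9 / (4 * √(r : ℝ)) := by positivity
  linarith

theorem holds_of3 {r m : ℕ} (hr : r = 11 ∨ r = 13) (h : ∀ d, ¬ Win3 r m d) : Holds.{u} r m := by
  have h1 := (ElevenAndThirteen.result.{u} r hr).1 m
  intro k _ _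
  obtain ⟨F, hF, hF'⟩ := h1 k
  refine ⟨F, hF, fun c a hc d _ => hF' c a hc d ?_⟩
  show ¬ 3 ∣ d ∨ (d : ℝ) ≤ √(r : ℝ) * m ∨ √(r : ℝ) * (2 * m + 1) ≤ 2 * d + 3
  by_contra hcon
  push Not at hcon
  obtain ⟨h2, h3, h4⟩ := hcon
  refine h d ⟨h2, ?_, h4⟩
  rw [lo_small hr]
  linarith

open Classical in
theorem one {r : ℕ} (hsq : ¬ IsSquare r) {δ : ℝ} (hδ0 : 0 < δ) (hδ1 : δ < 1)
    (h : ∀ m : ℕ, (∀ d : ℕ, δ ≤ |2 * (d : ℝ) + 3 - √(r : ℝ) * (2 * m + 1)|) → Holds.{u} r m) {f : ℤ[X]}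
    (hf : 1 ≤ f.natDegree) (hlc : 0 < f.leadingCoeff) {c : ℝ} (hc : c < 1 - δ) :
    ∀ᶠ N : ℕ in atTop, c * N ≤ cntI (fun m => Holds.{u} r m) f N ∧
      c * (Nat.primeCounting N : ℝ) ≤ cntP (fun m => Holds.{u} r m) f N := by
  obtain ⟨g1, g2⟩ := master (ι := Unit) (r := fun _ => r) (q := fun _ => 2) (A := fun _ => (δ - 1) / 2)
    (B := fun _ => (1 - δ) / 2) (fun _ => hsq) (fun _ _ h => absurd rfl h) (fun _ => by norm_num)
    (fun _ => by linarith) (fun _ => by linarith) hf hlc (c := c) (by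
      rw [Fintype.prod_unique]; linarith)
  have key : ∀ k : ℕ, (0 < f.eval (k : ℤ) ∧ ∀ _ : Unit, Arc 2 ((δ - 1) / 2) ((1 - δ) / 2) r (f.eval (k : ℤ))) →
      0 < f.eval (k : ℤ) ∧ Holds.{u} r (f.eval (k : ℤ)).toNat := by
    rintro k ⟨h1, h2⟩
    refine ⟨h1, h _ fun d => ?_⟩
    obtain ⟨j, h3, h4⟩ := h2 ()
    rw [toNat_cast h1]
    set z := f.eval (k : ℤ) with hz
    push_cast at h3 h4
    rcases le_or_gt 0 ((d : ℤ) - j + 1) with h5 | h5
    · have h6 : (0 : ℝ) ≤ d - j + 1 := by exact_mod_cast h5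
      refine le_trans ?_ (le_abs_self _)
      linarith
    · have h6 : (d : ℝ) - j + 1 ≤ -1 := by
        have : (d : ℤ) - j + 1 ≤ -1 := by omega
        exact_mod_cast this
      refine le_trans ?_ (neg_le_abs _)
      linarith
  filter_upwards [g1, g2] with N h1 h2
  constructor
  · refine h1.trans (Nat.cast_le.2 (ncard_ge _ N _ (fun k hk1 hk2 hk => ?_) fun k hk => hk.2.1))
    exact ⟨hk1, hk2, key k hk⟩
  · refine h2.trans (Nat.cast_le.2 (ncard_ge_prime _ N _ (fun k hk1 hk2 hk => ?_) fun k hk => hk.2.1))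
    exact ⟨hk1, hk2, key k hk⟩

/-- **Main result.** -/
theorem result :
    -- all `10 ≤ r ≤ 36` at once
    (∃ κ : ℝ, 0 < κ ∧ (∀ᶠ N : ℕ in atTop, ∀ x : ℕ,
      κ * N ≤ Set.ncard {m : ℕ | x < m ∧ m ≤ x + N ∧ ∀ r : ℕ, 10 ≤ r → r ≤ 36 → Holds.{u} r m}) ∧
      ∀ f : ℤ[X], 1 ≤ f.natDegree → 0 < f.leadingCoeff → ∀ᶠ N : ℕ in atTop,
      κ * N ≤ Set.ncard {k : ℕ | 1 ≤ k ∧ k ≤ N ∧ 0 < f.eval (k : ℤ) ∧
        ∀ r : ℕ, 10 ≤ r → r ≤ 36 → Holds.{u} r (f.eval (k : ℤ)).toNat} ∧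
      κ * (Nat.primeCounting N : ℝ) ≤ Set.ncard {p : ℕ | p.Prime ∧ p ≤ N ∧ 0 < f.eval (p : ℤ) ∧
        ∀ r : ℕ, 10 ≤ r → r ≤ 36 → Holds.{u} r (f.eval (p : ℤ)).toNat}) ∧
    -- the proportions
    (∀ R : Finset ℕ, (∀ r ∈ R, 10 ≤ r ∧ ¬ IsSquare r) → (∀ r ∈ R, ∀ s ∈ R, r ≠ s → ¬ IsSquare (r * s)) →
      ∀ ε : ℝ, 0 < ε → (∀ᶠ N : ℕ in atTop, ∀ x : ℕ, (∏ r ∈ R, (1 - beta r) - ε) * N ≤
        Set.ncard {m : ℕ | x < m ∧ m ≤ x + N ∧ ∀ r : ℕ, 10 ≤ r → (r ∈ R ∨ IsSquare r) → Holds.{u} r m}) ∧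
      ∀ f : ℤ[X], 1 ≤ f.natDegree → 0 < f.leadingCoeff → ∀ᶠ N : ℕ in atTop,
      (∏ r ∈ R, (1 - beta r) - ε) * N ≤ Set.ncard {k : ℕ | 1 ≤ k ∧ k ≤ N ∧ 0 < f.eval (k : ℤ) ∧
        ∀ r : ℕ, 10 ≤ r → (r ∈ R ∨ IsSquare r) → Holds.{u} r (f.eval (k : ℤ)).toNat} ∧
      (∏ r ∈ R, (1 - beta r) - ε) * (Nat.primeCounting N : ℝ) ≤ Set.ncard {p : ℕ | p.Prime ∧ p ≤ N ∧
        0 < f.eval (p : ℤ) ∧ ∀ r : ℕ, 10 ≤ r → (r ∈ R ∨ IsSquare r) → Holds.{u} r (f.eval (p : ℤ)).toNat}) ∧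
    -- many points
    (∀ ε : ℝ, 0 < ε → ∃ r₀ : ℕ, ∀ r : ℕ, r₀ ≤ r → ∀ f : ℤ[X], 1 ≤ f.natDegree → 0 < f.leadingCoeff →
      ∀ᶠ N : ℕ in atTop,
      (1 - ε) * N ≤ Set.ncard {k : ℕ | 1 ≤ k ∧ k ≤ N ∧ 0 < f.eval (k : ℤ) ∧ Holds.{u} r (f.eval (k : ℤ)).toNat} ∧
      (1 - ε) * (Nat.primeCounting N : ℝ) ≤ Set.ncard {p : ℕ | p.Prime ∧ p ≤ N ∧ 0 < f.eval (p : ℤ) ∧
        Holds.{u} r (f.eval (p : ℤ)).toNat}) ∧
    (∀ r : ℕ, 10 ≤ r → beta r < 1) ∧ beta 10 < 0.163 ∧ beta 11 < 0.053 ∧ beta 13 < 0.101 := by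
  have q1 : ∀ m : ℕ, 0 < m → (∀ r : ℕ, 10 ≤ r → r ≤ 36 → ¬ IsSquare r → ∀ d, ¬ Win r m d) →
      ∀ r : ℕ, 10 ≤ r → r ≤ 36 → Holds.{u} r m := by
    intro m _ h r hr hr2
    by_cases hsq : IsSquare r
    · exact holds_sq hr hsq m
    · exact holds_of hr (h r hr hr2 hsq)
  have q2 : ∀ R : Finset ℕ, ∀ m : ℕ, 0 < m → (∀ r ∈ R, r ∈ ({11, 13} : Finset ℕ) → ∀ d, ¬ Win3 r m d) →
      (∀ r ∈ R, r ∉ ({11, 13} : Finset ℕ) → ∀ d, ¬ Win r m d) →
      ∀ r : ℕ, 10 ≤ r → (r ∈ R ∨ IsSquare r) → Holds.{u} r m := by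
    intro R m _ h1 h2 r hr hrR
    rcases hrR with hrR | hsq
    · by_cases hT : r ∈ ({11, 13} : Finset ℕ)
      · exact holds_of3 (by simpa using hT) (h1 r hrR hT)
      · exact holds_of hr (h2 r hrR hT)
    · exact holds_sq hr hsq m
  refine ⟨⟨kap, kap_pos, joint_short q1, fun f hf hlc => joint q1 hf hlc⟩, fun R hR hpair ε hε =>
    ⟨several_short (fun r hr => (hR r hr).1) (fun r hr => (hR r hr).2) hpair (q2 R) hε,
      fun f hf hlc => several (fun r hr => (hR r hr).1) (fun r hr => (hR r hr).2) hpair (q2 R) hf hlc hε⟩,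
    fun ε hε => ?_, fun n hn => be_lt hn, be_ten (by decide), be_eleven (by decide), be_thirteen (by decide)⟩
  · obtain ⟨r₀, hr₀⟩ := (EveryNumberOfPoints.result.{u}).2.2.2.2 (min (ε / 2) (1 / 2)) (by positivity)
    refine ⟨max r₀ 10, fun r hr f hf hlc => ?_⟩
    have h1 := (hr₀ r ((le_max_left _ _).trans hr)).1
    by_cases hsq : IsSquare r
    · -- every multiplicity
      have hall : ∀ m, Holds.{u} r m := fun m => holds_sq ((le_max_right _ _).trans hr) hsq m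
      have h2 := several (Q := fun m => Holds.{u} r m) (R := ∅) (T := ∅) (by simp) (by simp) (by simp)
        (fun m _ _ _ => hall m) hf hlc hε
      simp only [prod_empty] at h2
      exact h2
    · have hd0 : 0 < min (ε / 2) (1 / 2 : ℝ) := by positivity
      have hd1 : min (ε / 2) (1 / 2 : ℝ) < 1 := (min_le_right _ _).trans_lt (by norm_num)
      have hd2 : 1 - ε < 1 - min (ε / 2) (1 / 2 : ℝ) := by
        have := min_le_left (ε / 2) (1 / 2 : ℝ)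
        linarith
      refine one hsq hd0 hd1 (fun m hm => ?_) hf hlc hd2
      exact mono (h1 m) fun d _ => hm d

end Pool.Agent.Results.MP_e6aa12_ag.OneMultiplicitySeveralNumbers
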